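import Pool.Agent.Helper14.IR.Main

/-!
MP_2f4170_nt, Q1: the polynomial `1 + 2 x + 3 x^2 + ... + (n+1) x^n` is irreducible over `ℚ` for every `n ≥ 1`.

Outline of the proof (files `Pool/Agent/Helper14/IR`). Let `N = n + 2` and let `S` be the reversed polynomial, `(x-1)^2 S = x^N - N x + (N-1)`. Suppose `S = G H` with monic nonconstant
integer polynomials, `r = deg G ≤ deg H`.
* (`Root`, `En`) The complex roots of `S` satisfy `1 < |β| ≤ λ`, `λ^(N-1) = 2N - 1`, and `N (N-1) = β (β-1) S'(β)`, so
  `(N (N-1))^r = |G(0)| |G(1)| |disc G| |Res(G,H)|`, while `|disc G| ≤ r^r λ^(r(r-1))` (`Had`, Hadamard).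
* (`LocA` to `LocM`) A lemma on factorizations `y G H = u D_a - p^a κ` in a local domain with maximal ideal `(p, Y)`: `p^(a-1)` and `p^(h-1) D_(a-h)` lie in the ideal `(G, H)`.
* (`LocG1` to `LocG3`) Applied to the localizations of `ℤ[x]` at the maximal ideals containing `G`, `H` and `p`, where `T = p^a m` is `N` or `N - 1` and `p ∤ m`: there is `s ∈ 1 + p ℤ[x]` such that
  `s p^(a-1)` and `s p^(h-1) (1 + x + ... + x^(m p^(a-h) - 1))`, `1 ≤ h < a`, are in `(G, H)`.
* (`Det`, `ValC`, `ValO`) Hence the exponent `v_p` of `p` in `Res(G,H)` is at most `∑_(h<a) min(r, T/p^h - 1)`, and `p^(v_p) ≤ (p^(h-1) (1 + λ^(T/p^h)))^r`.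
* (`NumA` to `Num4f`) These bounds contradict the product formula: `N < 4096` by exact computation, `N ≤ 8 r` by a linear programming bound, the rest by computation up to `2^5129` and Chebyshev's
  estimate beyond (`G(0)` and `H(0)` are coprime with product `N - 1` and at least `2`, which gives `r ≥ (N-1) log 2 / log (2N-1)`).

Authors of the blocks: see the files; the proof was found by helper14.
-/

set_option autoImplicit false

open Polynomial

namespace Pool.Agent.Results.MP_2f4170_nt.IrreducibleAll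

/-- `s_n = ∑_{k=0}^{n} (k+1) x^k` is irreducible in `ℚ[x]` for every `n ≥ 1`. -/
theorem result (n : ℕ) (hn : 1 ≤ n) :
    Irreducible ((∑ k ∈ Finset.range (n + 1), C ((k : ℤ) + 1) * X ^ k : ℤ[X]).map (Int.castRingHom ℚ)) := by
  have h := Pool.Agent.Helper14.IR.irreducible_all n hn
  have e : (∑ k ∈ Finset.range (n + 1), C ((k : ℤ) + 1) * X ^ k : ℤ[X]).map (Int.castRingHom ℚ) =
      (∑ k ∈ Finset.range (n + 1), C ((k : ℚ) + 1) * X ^ k : ℚ[X]) := by
    rw [Polynomial.map_sum]
    refine Finset.sum_congr rfl fun k _ => ?_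
    simp
  rw [e]
  exact h

end Pool.Agent.Results.MP_2f4170_nt.IrreducibleAll
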